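import Mathlib

set_option autoImplicit false
open Polynomial intervalIntegral

namespace Pool.Agent.H.MP_c605fa_an

noncomputable def L (P : ℝ[X]) : ℝ := ∫ t in (-1 : ℝ)..1, √(1 + (P.derivative.eval t) ^ 2)

theorem cont (P : ℝ[X]) : Continuous fun t : ℝ => √(1 + (P.derivative.eval t) ^ 2) := by
  fun_prop

theorem sq_conv (a b u v : ℝ) (ha : 0 ≤ a) (hb : 0 ≤ b) (hab : a + b = 1) :
    √(1 + (a * u + b * v) ^ 2) ≤ a * √(1 + u ^ 2) + b * √(1 + v ^ 2) := by
  have h1 := Real.sq_sqrt (show 0 ≤ 1 + u ^ 2 by positivity)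
  have h2 := Real.sq_sqrt (show 0 ≤ 1 + v ^ 2 by positivity)
  have h3 : 1 + u * v ≤ √(1 + u ^ 2) * √(1 + v ^ 2) := by
    rw [← Real.sqrt_mul (by positivity)]
    apply Real.le_sqrt_of_sq_le
    nlinarith [sq_nonneg (u - v)]
  apply Real.sqrt_le_iff.2
  refine ⟨by positivity, ?_⟩
  have h4 := mul_le_mul_of_nonneg_left h3 (mul_nonneg ha hb)
  have h5 : (a + b) ^ 2 = 1 := by rw [hab]; ring
  have h6 : (a * √(1 + u ^ 2) + b * √(1 + v ^ 2)) ^ 2 = a ^ 2 * (1 + u ^ 2) + b ^ 2 * (1 + v ^ 2) +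
      2 * (a * b * (√(1 + u ^ 2) * √(1 + v ^ 2))) := by
    linear_combination a ^ 2 * h1 + b ^ 2 * h2
  rw [h6]
  nlinarith

theorem L_conv (a b : ℝ) (P Q : ℝ[X]) (ha : 0 ≤ a) (hb : 0 ≤ b) (hab : a + b = 1) :
    L (C a * P + C b * Q) ≤ a * L P + b * L Q := by
  unfold L
  rw [← integral_const_mul, ← integral_const_mul, ← integral_add
    (((cont P).const_mul a).intervalIntegrable _ _) (((cont Q).const_mul b).intervalIntegrable _ _)]
  apply integral_mono_on (by norm_num) ((cont _).intervalIntegrable _ _)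
    ((((cont P).const_mul a).add ((cont Q).const_mul b)).intervalIntegrable _ _)
  intro t _
  simpa using sq_conv a b _ _ ha hb hab

theorem vertex (l : List ℝ) (hl : ∀ x ∈ l, x ∈ Set.Icc (-1 : ℝ) 1) : ∀ R : ℝ[X], ∃ k m : ℕ,
    k + m = l.length ∧
      L (R * (l.map fun x => X - C x).prod) ≤ L (R * ((X - 1) ^ k * (X + 1) ^ m)) := by
  induction l with
  | nil => intro R; exact ⟨0, 0, rfl, by simp⟩
  | cons x l ih =>
    intro R
    have hx := hl x (by simp)
    have ih' := ih fun y hy => hl y (by simp [hy])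
    obtain ⟨k, m, h1, h2⟩ := ih' (R * (X - 1))
    obtain ⟨k', m', h1', h2'⟩ := ih' (R * (X + 1))
    have e : R * ((x :: l).map fun x => X - C x).prod =
        C ((1 + x) / 2) * (R * (X - 1) * (l.map fun x => X - C x).prod) +
        C ((1 - x) / 2) * (R * (X + 1) * (l.map fun x => X - C x).prod) := by
      have a1 : C ((1 + x) / 2) + C ((1 - x) / 2) = (1 : ℝ[X]) := by
        rw [← C_add, ← C_1]; congr 1; ring
      have a2 : C ((1 + x) / 2) - C ((1 - x) / 2) = (C x : ℝ[X]) := by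
        rw [← C_sub]; congr 1; ring
      rw [List.map_cons, List.prod_cons]
      linear_combination (-(R * X * (l.map fun x => X - C x).prod)) * a1 +
        (R * (l.map fun x => X - C x).prod) * a2
    have h3 := L_conv ((1 + x) / 2) ((1 - x) / 2) (R * (X - 1) * (l.map fun x => X - C x).prod)
      (R * (X + 1) * (l.map fun x => X - C x).prod) (by linarith [hx.1]) (by linarith [hx.2])
      (by ring)
    rw [← e] at h3
    have e1 : R * (X - 1) * ((X - 1) ^ k * (X + 1) ^ m) = R * ((X - 1) ^ (k + 1) * (X + 1) ^ m) := by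
      ring
    have e2 : R * (X + 1) * ((X - 1) ^ k' * (X + 1) ^ m') =
      R * ((X - 1) ^ k' * (X + 1) ^ (m' + 1)) := by ring
    rw [e1] at h2
    rw [e2] at h2'
    rcases le_total (L (R * ((X - 1) ^ (k + 1) * (X + 1) ^ m)))
      (L (R * ((X - 1) ^ k' * (X + 1) ^ (m' + 1)))) with h | h
    · refine ⟨k', m' + 1, by rw [List.length_cons]; omega, h3.trans ?_⟩
      nlinarith [hx.1, hx.2]
    · refine ⟨k + 1, m, by rw [List.length_cons]; omega, h3.trans ?_⟩
      nlinarith [hx.1, hx.2]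

theorem ftc (P : ℝ[X]) (a b : ℝ) : ∫ t in a..b, P.derivative.eval t = P.eval b - P.eval a :=
  integral_eq_sub_of_hasDerivAt (fun t _ => P.hasDerivAt t)
    (P.derivative.continuous.intervalIntegrable _ _)

theorem lower (n : ℕ) (hn : 1 ≤ n) : (2 : ℝ) ^ n ≤ L ((X + 1) ^ n) := by
  have h := ftc ((X + 1) ^ n) (-1) 1
  have h2 : eval (1 : ℝ) ((X + 1) ^ n) - eval (-1 : ℝ) ((X + 1) ^ n) = 2 ^ n := by
    simp [one_add_one_eq_two, zero_pow (by omega : n ≠ 0)]
  rw [← h2, ← h]
  apply integral_mono_on (by norm_num) ((Polynomial.continuous _).intervalIntegrable _ _)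
    ((cont _).intervalIntegrable _ _)
  intro t _
  apply Real.le_sqrt_of_sq_le
  linarith

theorem symm (n : ℕ) : L ((X - 1) ^ n) = L ((X + 1) ^ n) := by
  unfold L
  have := integral_comp_neg (a := (-1 : ℝ)) (b := 1)
    (fun t : ℝ => √(1 + (((X + 1) ^ n : ℝ[X]).derivative.eval t) ^ 2))
  rw [neg_neg] at this
  rw [← this]
  congr 1
  ext t
  simp only [derivative_pow, derivative_sub, derivative_add, derivative_X, derivative_one,
    eval_mul, eval_pow, eval_sub, eval_add, eval_X, eval_one, eval_zero, eval_C, mul_pow]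
  rw [← pow_mul, ← pow_mul, mul_comm (n - 1) 2, pow_mul, pow_mul]
  congr 3
  · congr 2; ring
  · ring

theorem mixed (k m : ℕ) : L ((X - 1) ^ (k + 1) * (X + 1) ^ (m + 1)) ≤ 2 ^ (k + m + 2) := by
  obtain ⟨q, hq⟩ : ∃ q : ℝ[X], q = (1 - X) ^ (k + 1) * (X + 1) ^ (m + 1) := ⟨_, rfl⟩
  have e0 : ((X - 1) ^ (k + 1) * (X + 1) ^ (m + 1) : ℝ[X]) = C ((-1) ^ (k + 1)) * q := by
    rw [hq, ← mul_assoc, C_pow, ← mul_pow]; congr 2; simp
  have e1 : ∀ t, q.derivative.eval t =
      (1 - t) ^ k * (t + 1) ^ m * (((m : ℝ) - k) - (k + m + 2) * t) := by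
    intro t
    rw [hq]
    simp [derivative_mul, derivative_pow_succ]
    ring
  obtain ⟨c, hc⟩ : ∃ c : ℝ, c = ((m : ℝ) - k) / (k + m + 2) := ⟨_, rfl⟩
  have hp : (0 : ℝ) < k + m + 2 := by positivity
  have hc' : (k + m + 2) * c = (m : ℝ) - k := by rw [hc]; field_simp
  have hk := Nat.cast_nonneg (α := ℝ) k
  have hm := Nat.cast_nonneg (α := ℝ) m
  have c1 : -1 ≤ c := by rw [hc, le_div_iff₀ hp]; linarith
  have c2 : c ≤ 1 := by rw [hc, div_le_iff₀ hp]; linarith
  have hca : Continuous fun t => |q.derivative.eval t| := by fun_prop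
  have i1 : ∫ t in (-1 : ℝ)..c, |q.derivative.eval t| = q.eval c := by
    rw [integral_congr (g := fun t => q.derivative.eval t), ftc]
    · simp [hq]
    · intro t ht
      rw [Set.uIcc_of_le c1] at ht
      apply abs_of_nonneg
      rw [e1]
      have := mul_le_mul_of_nonneg_left ht.2 hp.le
      exact mul_nonneg (mul_nonneg (pow_nonneg (by linarith [ht.2]) _)
        (pow_nonneg (by linarith [ht.1]) _)) (by linarith)
  have i2 : ∫ t in c..1, |q.derivative.eval t| = q.eval c := by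
    rw [integral_congr (g := fun t => -q.derivative.eval t), integral_neg, ftc]
    · simp [hq]
    · intro t ht
      rw [Set.uIcc_of_le c2] at ht
      apply abs_of_nonpos
      rw [e1]
      have := mul_le_mul_of_nonneg_left ht.1 hp.le
      exact mul_nonpos_of_nonneg_of_nonpos (mul_nonneg (pow_nonneg (by linarith [ht.2]) _)
        (pow_nonneg (by linarith [ht.1]) _)) (by linarith)
  have i3 : ∫ t in (-1 : ℝ)..1, |q.derivative.eval t| = 2 * q.eval c := by
    rw [← integral_add_adjacent_intervals (hca.intervalIntegrable (-1) c)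
      (hca.intervalIntegrable c 1), i1, i2, two_mul]
  have i4 : q.eval c ≤ 2 ^ (k + m) := by
    have : q.eval c = ((1 - c) ^ k * (c + 1) ^ m) * ((1 - c) * (c + 1)) := by
      rw [hq]; simp; ring
    rw [this, pow_add]
    have a1 : (1 - c) ^ k * (c + 1) ^ m ≤ 2 ^ k * 2 ^ m :=
      mul_le_mul (pow_le_pow_left₀ (by linarith) (by linarith) _)
        (pow_le_pow_left₀ (by linarith) (by linarith) _) (pow_nonneg (by linarith) _) (by positivity)
    have a2 : (1 - c) * (c + 1) ≤ 1 := by nlinarith [sq_nonneg c]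
    calc _ ≤ (2 ^ k * 2 ^ m) * 1 := mul_le_mul a1 a2 (by nlinarith) (by positivity)
      _ = _ := mul_one _
  have i5 : L ((X - 1) ^ (k + 1) * (X + 1) ^ (m + 1)) ≤
      ∫ t in (-1 : ℝ)..1, (1 + |q.derivative.eval t|) := by
    apply integral_mono_on (by norm_num) ((cont _).intervalIntegrable _ _)
      ((continuous_const.add hca).intervalIntegrable _ _)
    intro t _
    rw [e0, derivative_C_mul, eval_mul, eval_C, mul_pow, ← pow_mul, mul_comm (k + 1) 2, pow_mul]
    show _ ≤ 1 + |q.derivative.eval t|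
    apply Real.sqrt_le_iff.2
    refine ⟨by positivity, ?_⟩
    have := sq_abs (q.derivative.eval t)
    have := abs_nonneg (q.derivative.eval t)
    simp only [even_two, Even.neg_pow, one_pow, one_mul]
    nlinarith
  rw [integral_add (continuous_const.intervalIntegrable _ _) (hca.intervalIntegrable _ _), i3] at i5
  simp only [integral_const, smul_eq_mul] at i5
  have : (1 : ℝ) ≤ 2 ^ (k + m) := one_le_pow₀ (by norm_num)
  rw [pow_add _ (k + m) 2]
  linarith

theorem main (l : List ℝ) (hl : ∀ x ∈ l, x ∈ Set.Icc (-1 : ℝ) 1) :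
    L (l.map fun x => X - C x).prod ≤ L ((X + 1) ^ l.length) := by
  obtain ⟨k, m, h1, h2⟩ := vertex l hl 1
  rw [one_mul, one_mul] at h2
  refine h2.trans ?_
  rw [← h1]
  rcases k with _ | k
  · simp
  · rcases m with _ | m
    · simp [symm]
    · refine (mixed k m).trans ?_
      rw [show k + m + 2 = k + 1 + (m + 1) by ring]
      exact lower _ (by omega)

theorem lower' (n : ℕ) (hn : 1 ≤ n) : (2 : ℝ) ^ n < L ((X + 1) ^ n) := by
  have h := ftc ((X + 1) ^ n) (-1) 1
  have h2 : eval (1 : ℝ) ((X + 1) ^ n) - eval (-1 : ℝ) ((X + 1) ^ n) = 2 ^ n := by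
    simp [one_add_one_eq_two, zero_pow (by omega : n ≠ 0)]
  rw [← h2, ← h]
  have key : ∀ t : ℝ, ((X + 1) ^ n : ℝ[X]).derivative.eval t <
      √(1 + (((X + 1) ^ n : ℝ[X]).derivative.eval t) ^ 2) := fun t =>
    Real.lt_sqrt_of_sq_lt (by linarith)
  exact integral_lt_integral_of_continuousOn_of_le_of_exists_lt (by norm_num)
    (Polynomial.continuous _).continuousOn (cont _).continuousOn (fun t _ => (key t).le)
    ⟨0, by norm_num, key 0⟩

theorem split (x : ℝ) (hx : x ∈ Set.Icc (-1 : ℝ) 1) (R : ℝ[X]) :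
    L ((X - C x) * R) ≤ (1 + x) / 2 * L ((X - C 1) * R) + (1 - x) / 2 * L ((X - C (-1)) * R) := by
  have a1 : C ((1 + x) / 2) + C ((1 - x) / 2) = (1 : ℝ[X]) := by
    rw [← C_add, ← C_1]; congr 1; ring
  have a2 : C ((1 + x) / 2) - C ((1 - x) / 2) = (C x : ℝ[X]) := by
    rw [← C_sub]; congr 1; ring
  have h3 := L_conv ((1 + x) / 2) ((1 - x) / 2) ((X - C 1) * R) ((X - C (-1)) * R)
    (by linarith [hx.1]) (by linarith [hx.2]) (by ring)
  convert h3 using 2
  rw [C_neg, C_1]
  linear_combination (-(R * X)) * a1 + R * a2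

theorem strict (a b : ℝ) (l : List ℝ) (hl : ∀ x ∈ a :: b :: l, x ∈ Set.Icc (-1 : ℝ) 1)
    (ha : a ≠ 1) (hb : b ≠ -1) :
    L ((a :: b :: l).map fun x => X - C x).prod < L ((X + 1) ^ (l.length + 2)) := by
  have h1 := hl a (by simp)
  have h2 := hl b (by simp)
  have h3 : ∀ x ∈ l, x ∈ Set.Icc (-1 : ℝ) 1 := fun x hx => hl x (by simp [hx])
  have ha' : a < 1 := lt_of_le_of_ne h1.2 ha
  have hb' : -1 < b := lt_of_le_of_ne h2.1 hb.symm
  have m1 := main (1 :: b :: l) (by
    intro x hx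
    rcases List.mem_cons.1 hx with rfl | hx
    · norm_num
    · exact hl x (List.mem_cons_of_mem _ hx))
  have m2 := main (-1 :: -1 :: l) (by
    intro x hx
    simp only [List.mem_cons] at hx
    rcases hx with rfl | rfl | hx
    · norm_num
    · norm_num
    · exact h3 x hx)
  obtain ⟨k, m, e1, e2⟩ := vertex l h3 ((X - C 1) * (X - C (-1)))
  have e3 : (X - C 1) * (X - C (-1)) * ((X - 1) ^ k * (X + 1) ^ m) =
      ((X - 1) ^ (k + 1) * (X + 1) ^ (m + 1) : ℝ[X]) := by
    rw [C_neg, C_1]; ring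
  rw [e3] at e2
  have e4 := (e2.trans (mixed k m)).trans_lt (lower' (k + m + 2) (by omega))
  rw [e1] at e4
  simp only [List.map_cons, List.prod_cons, List.length_cons] at m1 m2 ⊢
  obtain ⟨R, hR⟩ : ∃ R, R = (l.map fun x => X - C x).prod := ⟨_, rfl⟩
  rw [← hR] at m1 m2 e4 ⊢
  have s1 := split a h1 ((X - C b) * R)
  have s2 := split b h2 ((X - C (-1)) * R)
  rw [mul_left_comm (X - C b)] at s2
  rw [mul_assoc] at e4
  obtain ⟨M, hM⟩ : ∃ M, M = L ((X + 1) ^ (l.length + 2)) := ⟨_, rfl⟩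
  rw [show l.length + 1 + 1 = l.length + 2 from rfl, ← hM] at m1 m2
  rw [← hM] at e4 ⊢
  have s3 : L ((X - C (-1)) * ((X - C b) * R)) < M := by nlinarith [h2.2]
  nlinarith [h1.1]

end Pool.Agent.H.MP_c605fa_an
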